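import Mathlib

namespace Pool.Agent.Results.MP_b1d502_nt.Disproof

/-- Speed sets: ordered tuples of pairwise distinct positive integers. -/
def Speed (k : ℕ) : Set (Fin k → ℕ) := {s | (∀ i, 0 < s i) ∧ Function.Injective s}

/-- The set `A(s)`. -/
def A {k : ℕ} (s : Fin k → ℕ) : Set (Fin k → ℝ) :=
  {d | (∀ i, 0 < d i ∧ d i ≤ 1 / 2) ∧ ∃ t : ℝ, ∀ i, d i ≤ |s i * t - round (s i * t)|}

/-- The mixed loneliness parameter space. -/
def MLPS (k : ℕ) : Set (Fin k → ℝ) := ⋂ s ∈ Speed k, A s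

theorem far (p q : ℕ) (hq : 0 < q) (h : ¬ q ∣ p) (m : ℤ) : (1 : ℝ) / q ≤ |(p : ℝ) / q - m| := by
  have q0 : (0 : ℝ) < q := by exact_mod_cast hq
  have : (p : ℤ) - m * q ≠ 0 := fun e => h (Int.natCast_dvd_natCast.1 ⟨m, by linarith⟩)
  have h1 : (1 : ℝ) ≤ |((p - m * q : ℤ) : ℝ)| := by exact_mod_cast Int.one_le_abs this
  rw [show (p : ℝ) / q - m = ((p - m * q : ℤ) : ℝ) / q by push_cast; field_simp, abs_div,
    abs_of_pos q0]
  gcongr

theorem key (N : ℕ) (s : Fin 3 → ℕ) (h0 : ∀ i, 0 < s i) (h1 : ∀ i, s i ≤ N) :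
    (![(3 * N - 1) / (6 * N), 1 / (3 * N), 1 / (6 * N * N)] : Fin 3 → ℝ) ∈ A s := by
  have N1 : 1 ≤ N := (h0 0).trans_le (h1 0)
  have n1 : (1 : ℝ) ≤ N := by exact_mod_cast N1
  have a0 : (1 : ℝ) ≤ s 0 := by exact_mod_cast h0 0
  have a1 : (s 0 : ℝ) ≤ N := by exact_mod_cast h1 0
  have b0 : (1 : ℝ) ≤ s 1 := by exact_mod_cast h0 1
  have b1 : (s 1 : ℝ) ≤ N := by exact_mod_cast h1 1
  have n3 : (0 : ℝ) < 3 * N - 1 := by linarith
  refine ⟨fun i => ?_, (3 * N + 1) / (6 * N * s 0), fun i => ?_⟩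
  · have k : ∀ p q : ℝ, 0 < p → 0 < q → 2 * p ≤ q → 0 < p / q ∧ p / q ≤ 1 / 2 :=
      fun p q hp hq h => ⟨by positivity, by rw [div_le_iff₀ hq]; linarith⟩
    fin_cases i
    exacts [k _ _ n3 (by positivity) (by linarith), k _ _ one_pos (by positivity) (by linarith),
      k _ _ one_pos (by positivity) (by nlinarith)]
  fin_cases i
  · show (3 * N - 1 : ℝ) / (6 * N) ≤ |(s 0 : ℝ) * _ - round ((s 0 : ℝ) * _)|
    have e : (s 0 : ℝ) * ((3 * N + 1) / (6 * N * s 0)) = 1 - (3 * N - 1) / (6 * N) := by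
      field_simp; ring
    have l : (3 * N - 1 : ℝ) / (6 * N) ≤ 1 / 2 := by rw [div_le_iff₀ (by positivity)]; linarith
    rw [e]
    generalize round (_ : ℝ) = m
    rcases le_or_gt m 0 with h | h
    · have : (m : ℝ) ≤ 0 := by exact_mod_cast h
      exact le_abs.2 (Or.inl (by linarith))
    · have : (1 : ℝ) ≤ m := by exact_mod_cast h
      exact le_abs.2 (Or.inr (by linarith))
  · show (1 : ℝ) / (3 * N) ≤ |(s 1 : ℝ) * _ - round ((s 1 : ℝ) * _)|
    have e : (s 1 : ℝ) * ((3 * N + 1) / (6 * N * s 0)) =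
        s 1 / (2 * s 0 : ℕ) + s 1 / (6 * N * s 0) := by push_cast; field_simp; ring
    have l1 : (s 1 : ℝ) / (6 * N * s 0) ≤ 1 / (6 * s 0) := by
      rw [div_le_div_iff₀ (by positivity) (by positivity)]; nlinarith
    have l2 : (1 : ℝ) / (3 * N) ≤ 1 / (3 * s 0) := by gcongr
    have l3 : (1 : ℝ) / (6 * s 0) ≤ 1 / 6 := by gcongr; linarith
    have l4 : (1 : ℝ) / (3 * N) ≤ 1 / 3 := by gcongr; linarith
    have l5 : 0 ≤ (s 1 : ℝ) / (6 * N * s 0) := by positivity
    rw [e]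
    generalize round (_ : ℝ) = m
    by_cases h : 2 * s 0 ∣ s 1
    · have l6 : (1 : ℝ) / (3 * N) ≤ s 1 / (6 * N * s 0) := by
        have : ((2 * s 0 : ℕ) : ℝ) ≤ s 1 := by exact_mod_cast Nat.le_of_dvd (h0 1) h
        rw [div_le_div_iff₀ (by positivity) (by positivity)]; push_cast at this; nlinarith
      obtain ⟨c, hc⟩ := h
      have : (s 1 : ℝ) / (2 * s 0 : ℕ) = c := by rw [hc]; push_cast; field_simp
      rw [this]
      rcases le_or_gt m c with h | h
      · have : (m : ℝ) ≤ c := by exact_mod_cast h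
        exact le_abs.2 (Or.inl (by linarith))
      · have : (c : ℝ) + 1 ≤ m := by exact_mod_cast h
        exact le_abs.2 (Or.inr (by linarith))
    · have := far (s 1) (2 * s 0) (by have := h0 0; omega) h m
      have e2 : (1 : ℝ) / (2 * s 0 : ℕ) = 1 / (3 * s 0) + 1 / (6 * s 0) := by
        push_cast; field_simp; ring
      rcases le_abs.1 this with h | h
      · exact le_abs.2 (Or.inl (by linarith))
      · exact le_abs.2 (Or.inr (by linarith))
  · show (1 : ℝ) / (6 * N * N) ≤ |(s 2 : ℝ) * _ - round ((s 2 : ℝ) * _)|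
    have := far (s 2 * (3 * N + 1)) (6 * N * s 0) (by have := h0 0; positivity) (fun h => by
      have h2 : 3 * N ∣ s 2 * (3 * N + 1) := Dvd.dvd.trans ⟨2 * s 0, by ring⟩ h
      have := Nat.le_of_dvd (h0 2) (Nat.Coprime.dvd_of_dvd_mul_right (by simp) h2)
      have := h1 2; omega) (round ((s 2 : ℝ) * ((3 * N + 1) / (6 * N * s 0))))
    push_cast at this
    rw [mul_div_assoc] at this
    refine le_trans ?_ this
    gcongr

theorem out (N : ℕ) (N1 : 1 ≤ N) :
    (![(3 * N - 1) / (6 * N), 1 / (3 * N), 1 / (6 * N * N)] : Fin 3 → ℝ) ∉ MLPS 3 := by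
  intro h
  have n1 : (1 : ℝ) ≤ N := by exact_mod_cast N1
  obtain ⟨-, t, ht⟩ := Set.mem_iInter₂.1 h ![1, 2, 6 * N] ⟨fun i => by fin_cases i <;> simp; omega,
    fun i j e => by fin_cases i <;> fin_cases j <;> simp at e ⊢ <;> omega⟩
  have a : (3 * N - 1 : ℝ) / (6 * N) ≤ |t - round t| := by simpa using ht 0
  have b : (1 : ℝ) / (3 * N) ≤ |2 * t - round (2 * t)| := ht 1
  have c : (1 : ℝ) / (6 * N * N) ≤ |(6 * N : ℕ) * t - round ((6 * N : ℕ) * t)| := ht 2
  have e : (3 * N - 1 : ℝ) / (6 * N) = 1 / 2 - 1 / (3 * N) / 2 := by field_simp; ring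
  have d := abs_le.1 (abs_sub_round t)
  have p : (0 : ℝ) < 1 / (6 * N * N) := by positivity
  rcases le_abs.1 a with a | a
  · have := b.trans (round_le (2 * t) (2 * round t + 1))
    rw [abs_of_nonpos (by push_cast; linarith)] at this; push_cast at this
    have f : t = round t + (3 * N - 1) / (6 * N) := by linarith
    have := c.trans (round_le _ (6 * N * round t + (3 * N - 1)))
    rw [show ((6 * N : ℕ) : ℝ) * t - ((6 * N * round t + (3 * N - 1) : ℤ) : ℝ) = 0 by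
      generalize round t = m at f; rw [f]; push_cast; field_simp; ring, abs_zero] at this
    linarith
  · have := b.trans (round_le (2 * t) (2 * round t - 1))
    rw [abs_of_nonneg (by push_cast; linarith)] at this; push_cast at this
    have f : t = round t - (3 * N - 1) / (6 * N) := by linarith
    have := c.trans (round_le _ (6 * N * round t - (3 * N - 1)))
    rw [show ((6 * N : ℕ) : ℝ) * t - ((6 * N * round t - (3 * N - 1) : ℤ) : ℝ) = 0 by
      generalize round t = m at f; rw [f]; push_cast; field_simp; ring, abs_zero] at this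
    linarith

theorem result : (∀ F : Set (Fin 3 → ℕ), F.Finite → F ⊆ Speed 3 → MLPS 3 ⊂ ⋂ s ∈ F, A s) ∧
    ¬ ∀ k, 1 ≤ k → ∃ F : Set (Fin k → ℕ), F.Finite ∧ F ⊆ Speed k ∧ MLPS k = ⋂ s ∈ F, A s := by
  have H : ∀ F : Set (Fin 3 → ℕ), F.Finite → F ⊆ Speed 3 → MLPS 3 ⊂ ⋂ s ∈ F, A s := by
    intro F hF hS
    obtain ⟨b, hb⟩ := hF.bddAbove
    refine ⟨Set.biInter_subset_biInter_left hS, fun h => out (b 0 + b 1 + b 2 + 1) (by omega)
      (h (Set.mem_iInter₂.2 fun s hs => key _ s (hS hs).1 fun i => ?_))⟩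
    have := hb hs i
    fin_cases i <;> simp at this ⊢ <;> omega
  refine ⟨H, fun h => ?_⟩
  obtain ⟨F, h1, h2, h3⟩ := h 3 (by norm_num)
  exact (H F h1 h2).ne h3

end Pool.Agent.Results.MP_b1d502_nt.Disproof
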